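import Pool.Agent.Helper8.DA.Defs
import Pool.Agent.Helper8.DC.Sm

/-!
# Coefficients: the vector density is smooth
-/

set_option autoImplicit false

open scoped Manifold ContDiff

namespace Pool.Agent.Helper43.DA

open Pool.Agent.Helper8.DC Pool.Agent.Helper8.DA

theorem covL_smooth {N : ℕ} {U : Set E4} (hU : IsOpen U) {A : E4 → Fin 4 → R3}
    {B : E4 → Fin 4 → Matrix (Fin N) (Fin N) ℝ} {s : E4 → Fin N → R3}
    (hA : ContDiffOn ℝ ∞ A U) (hB : ∀ m r t, ContDiffOn ℝ ∞ (fun y => B y m r t) U)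
    (hs : ContDiffOn ℝ ∞ s U) (r : Fin N) (m : Fin 4) :
    ContDiffOn ℝ ∞ (fun y => covL A B s y r m) U := by
  have hs' := contDiffOn_pi.mp hs
  unfold covL
  exact (sm_cov hU hA (hs' r) m).add (ContDiffOn.sum fun t _ => (hB m r t).smul (hs' t))

theorem vecL_smooth {N : ℕ} {U : Set E4} (hU : IsOpen U) {A : E4 → Fin 4 → R3}
    {B : E4 → Fin 4 → Matrix (Fin N) (Fin N) ℝ} {s : E4 → Fin N → R3}
    (hA : ContDiffOn ℝ ∞ A U) (hB : ∀ m r t, ContDiffOn ℝ ∞ (fun y => B y m r t) U)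
    (hs : ContDiffOn ℝ ∞ s U) (l : Fin 4) : ContDiffOn ℝ ∞ (fun y => vecL A B s y l) U := by
  unfold vecL
  refine ContDiffOn.sum fun r _ => ?_
  have hφ' := contDiffOn_pi.mp (contDiffOn_pi.mp hs r)
  have hw : ∀ b c : Fin 3, ContDiffOn ℝ ∞ (fun y => wedge3 (Pi.single l 1)
      (cm1 (covL A B s y r) b) (cmp (curv A y) c)) U := by
    intro b c
    unfold wedge3
    refine sm_wedge (fun p q => ?_) (fun p q => ?_)
    · have h1 := contDiffOn_pi.mp (covL_smooth hU hA hB hs r q) b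
      have h2 := contDiffOn_pi.mp (covL_smooth hU hA hB hs r p) b
      exact (contDiffOn_const.mul h1).sub (contDiffOn_const.mul h2)
    · exact contDiffOn_pi.mp (sm_curv hU hA p q) c
  unfold trip
  exact (((hφ' 0).mul ((hw 1 2).sub (hw 2 1))).add ((hφ' 1).mul ((hw 2 0).sub (hw 0 2)))).add
    ((hφ' 2).mul ((hw 0 1).sub (hw 1 0)))

end Pool.Agent.Helper43.DA
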